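import Pool.Agent.Helper74.TBD.Block

set_option autoImplicit false

namespace Pool.Agent.Helper74.TBD

open Finset Module

variable {K : Type} [Field K] {W : Type} [AddCommGroup W] [Module K W]

theorem span_Z_le (S : Finset W) (f : Dual K W) :
    Submodule.span K (Z S f : Set W) ≤ LinearMap.ker f := by
  rw [Submodule.span_le]
  intro x hx
  exact (mem_Z.mp hx).2

/-- a functional whose zero set does not span its kernel is in a pencil containing a functional
with many zeros -/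
theorem exists_pencil [Fintype K] (S : Finset W) {f : Dual K W}
    (hbad : Submodule.span K (Z S f : Set W) ≠ LinearMap.ker f) :
    ∃ g : Dual K W, g ≠ 0 ∧ (∀ s ∈ S, f s = 0 → g s = 0) ∧
      ((Fintype.card K : ℤ) - 1) * (S.card : ℤ) ≤
        (Fintype.card K : ℤ) * b S g - ((Fintype.card K : ℤ) - 1) * b S f := by
  classical
  have hlt := lt_of_le_of_ne (span_Z_le S f) hbad
  obtain ⟨w, hw, hwn⟩ := SetLike.exists_of_lt hlt
  obtain ⟨g0, hg0w, hg0⟩ := Submodule.exists_dual_map_eq_bot_of_notMem hwn inferInstance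
  have hg0z : ∀ s ∈ Z S f, g0 s = 0 := by
    intro s hs
    have h1 : g0 s ∈ Submodule.map g0 (Submodule.span K (Z S f : Set W)) :=
      ⟨s, Submodule.subset_span hs, rfl⟩
    rw [hg0] at h1
    exact (Submodule.mem_bot K).mp h1
  have hpz : ∀ c : K, ∀ s ∈ S, f s = 0 → (g0 + c • f) s = 0 := by
    intro c s hs hfs
    simp [hg0z s (mem_Z.mpr ⟨hs, hfs⟩), hfs]
  have hpn : ∀ c : K, g0 + c • f ≠ 0 := by
    intro c h
    apply hg0w
    have h1 : (g0 + c • f) w = 0 := by rw [h]; rfl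
    simpa [LinearMap.mem_ker.mp hw] using h1
  have hsum : ∑ c : K, ((Z S (g0 + c • f)).card : ℤ) =
      (Fintype.card K : ℤ) * ((Z S f).card : ℤ) + ((T S f).card : ℤ) := by
    have h1 : ∀ c : K, ((Z S (g0 + c • f)).card : ℤ) =
        ((Z S f).card : ℤ) + ∑ s ∈ T S f, (if (g0 + c • f) s = 0 then (1 : ℤ) else 0) := by
      intro c
      have h2 : Z S (g0 + c • f) = Z S f ∪ (T S f).filter (fun s => (g0 + c • f) s = 0) := by
        ext s
        simp only [mem_union, mem_filter, mem_Z, mem_T]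
        constructor
        · rintro ⟨hs, h3⟩
          by_cases hfs : f s = 0
          · exact Or.inl ⟨hs, hfs⟩
          · exact Or.inr ⟨⟨hs, hfs⟩, h3⟩
        · rintro (⟨hs, hfs⟩ | ⟨⟨hs, -⟩, h3⟩)
          · exact ⟨hs, hpz c s hs hfs⟩
          · exact ⟨hs, h3⟩
      have h3 : Disjoint (Z S f) ((T S f).filter (fun s => (g0 + c • f) s = 0)) := by
        rw [disjoint_left]
        intro s hs hs2
        exact (mem_T.mp (mem_filter.mp hs2).1).2 (mem_Z.mp hs).2
      rw [h2, card_union_of_disjoint h3, card_filter]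
      push_cast
      rfl
    rw [sum_congr rfl (fun c _ => h1 c), sum_add_distrib, sum_comm]
    have h4 : ∀ s ∈ T S f, ∑ c : K, (if (g0 + c • f) s = 0 then (1 : ℤ) else 0) = 1 := by
      intro s hs
      rw [sum_eq_single_of_mem (- (g0 s * (f s)⁻¹)) (mem_univ _)]
      · rw [if_pos]
        simp only [LinearMap.add_apply, LinearMap.smul_apply, smul_eq_mul, neg_mul]
        rw [mul_assoc, inv_mul_cancel₀ (mem_T.mp hs).2, mul_one, add_neg_cancel]
      · intro c _ hc
        rw [if_neg]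
        intro h5
        apply hc
        simp only [LinearMap.add_apply, LinearMap.smul_apply, smul_eq_mul] at h5
        have h6 : g0 s = - (c * f s) := eq_neg_of_add_eq_zero_left h5
        rw [h6, neg_mul, neg_neg, mul_assoc, mul_inv_cancel₀ (mem_T.mp hs).2, mul_one]
    rw [sum_congr rfl h4]
    simp
  have hex : ∃ c : K, (Fintype.card K : ℤ) * ((Z S f).card : ℤ) + ((T S f).card : ℤ) ≤
      (Fintype.card K : ℤ) * ((Z S (g0 + c • f)).card : ℤ) := by
    by_contra hcon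
    push Not at hcon
    have h1 : ∑ c : K, (Fintype.card K : ℤ) * ((Z S (g0 + c • f)).card : ℤ) <
        ∑ c : K, ((Fintype.card K : ℤ) * ((Z S f).card : ℤ) + ((T S f).card : ℤ)) :=
      sum_lt_sum_of_nonempty ⟨0, mem_univ _⟩ (fun c _ => hcon c)
    rw [← mul_sum, hsum] at h1
    simp only [sum_const, card_univ, nsmul_eq_mul] at h1
    exact lt_irrefl _ h1
  obtain ⟨c, hc⟩ := hex
  refine ⟨g0 + c • f, hpn c, hpz c, ?_⟩
  have h1 : ((Z S f).card : ℤ) + ((T S f).card : ℤ) = (S.card : ℤ) := by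
    exact_mod_cast card_Z_add_card_T S f
  have h2 : (2 : ℤ) ≤ (Fintype.card K : ℤ) := by exact_mod_cast q_ge_two (K := K)
  unfold b
  nlinarith

/-- fibre bound -/
theorem fib [Fintype (Dual K W)] (A : Finset (Dual K W)) (u : Dual K W → Dual K W)
    (F : Dual K W → ℤ) (hF : ∀ g, 0 ≤ F g) (c M : ℤ) (hM : 0 ≤ M)
    (hu : ∀ f ∈ A, u f ≠ 0)
    (hm : ∀ g : Dual K W, g ≠ 0 → ∀ B : Finset (Dual K W), (∀ f ∈ B, f ∈ A ∧ u f = g) →
      (B.card : ℤ) * c ≤ M) :
    c * ∑ f ∈ A, F (u f) ≤ M * ∑ g : Dual K W, F g := by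
  classical
  rw [← sum_fiberwise A u (fun f => F (u f)), mul_sum, mul_sum]
  refine sum_le_sum (fun g _ => ?_)
  have h1 : ∑ f ∈ A.filter (fun f => u f = g), F (u f) =
      ((A.filter (fun f => u f = g)).card : ℤ) * F g := by
    rw [sum_congr rfl (fun f hf => by rw [(mem_filter.mp hf).2])]
    simp
  rw [h1]
  by_cases hg : g = 0
  · have h2 : A.filter (fun f => u f = g) = ∅ := by
      apply eq_empty_of_forall_notMem
      intro f hf
      rw [mem_filter] at hf
      exact hu f hf.1 (hf.2.trans hg)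
    rw [h2]
    simp only [card_empty, Nat.cast_zero, zero_mul, mul_zero]
    exact mul_nonneg hM (hF g)
  · have h2 := hm g hg (A.filter (fun f => u f = g)) (fun f hf => mem_filter.mp hf)
    have h3 := hF g
    nlinarith

section

variable [Fintype K] [FiniteDimensional K W] [Fintype (Dual K W)]

open Classical in
/-- functionals whose zero set does not span their kernel -/
theorem bad_one {k : ℕ} {S : Finset W} (H : PT K k S) :
    7 * ((univ.filter (fun f : Dual K W =>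
      Submodule.span K (Z S f : Set W) ≠ LinearMap.ker f)).card : ℤ) * (S.card : ℤ) *
      (Fintype.card K : ℤ) ^ k ≤
      8 * (Fintype.card K : ℤ) ^ 2 * ((Fintype.card K : ℤ) ^ (finrank K W)) ^ 2 +
      56 * ((Fintype.card K : ℤ) - 1) * (Fintype.card K : ℤ) ^ k *
        (Fintype.card K : ℤ) ^ (finrank K W) := by
  set A := univ.filter (fun f : Dual K W =>
      Submodule.span K (Z S f : Set W) ≠ LinearMap.ker f) with hA
  set q : ℤ := (Fintype.card K : ℤ) with hq
  set N : ℤ := q ^ (finrank K W) with hN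
  have hq2 : 2 ≤ q := by rw [hq]; exact_mod_cast q_ge_two (K := K)
  have hN0 : 0 < N := by positivity
  have hs0 : (0 : ℤ) < S.card := by
    obtain ⟨s, hs, -⟩ := H.block 0
    exact_mod_cast card_pos.mpr ⟨s, hs⟩
  have hex : ∀ f : Dual K W, ∃ g : Dual K W, f ∈ A → g ≠ 0 ∧ (∀ s ∈ S, f s = 0 → g s = 0) ∧
      (q - 1) * (S.card : ℤ) ≤ q * b S g - (q - 1) * b S f := by
    intro f
    by_cases hf : f ∈ A
    · obtain ⟨g, h1, h2, h3⟩ := exists_pencil S (mem_filter.mp hf).2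
      exact ⟨g, fun _ => ⟨h1, h2, h3⟩⟩
    · exact ⟨0, fun h => absurd h hf⟩
  choose u hu using hex
  have hsq := sumsq (K := K) S H.zero H.simp
  have h1 : q ^ k * ∑ f ∈ A, (b S (u f)) ^ 2 ≤ (N * (q - 1)) * ∑ g : Dual K W, (b S g) ^ 2 := by
    refine fib A u (fun g => (b S g) ^ 2) (fun g => sq_nonneg _) _ _
      (mul_nonneg hN0.le (by linarith)) (fun f hf => (hu f hf).1) ?_
    intro g hg B hB
    have h2 := few_nz H hg
    have h3 : (B.card : ℤ) ≤
        ((univ.filter (fun f : Dual K W => ∀ x ∈ T S g, f x ≠ 0)).card : ℤ) := by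
      exact_mod_cast card_le_card (fun f hf => by
        rw [mem_filter]
        refine ⟨mem_univ _, fun x hx hfx => ?_⟩
        have h4 := hB f hf
        have h5 := (hu f h4.1).2.1 x (mem_T.mp hx).1 hfx
        rw [h4.2] at h5
        exact (mem_T.mp hx).2 h5)
    have h6 : (0 : ℤ) < q ^ k := by positivity
    calc (B.card : ℤ) * q ^ k ≤ _ := mul_le_mul_of_nonneg_right h3 h6.le
      _ ≤ _ := h2
  have h2 : ∑ f ∈ A, (b S f) ^ 2 ≤ ∑ f : Dual K W, (b S f) ^ 2 :=
    sum_le_sum_of_subset_of_nonneg (subset_univ _) (fun _ _ _ => sq_nonneg _)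
  have h3 : (A.card : ℤ) * (7 * ((q - 1) * (S.card : ℤ)) ^ 2) ≤
      8 * q ^ 2 * ∑ f ∈ A, (b S (u f)) ^ 2 + 56 * (q - 1) ^ 2 * ∑ f ∈ A, (b S f) ^ 2 := by
    rw [mul_sum, mul_sum, ← sum_add_distrib, ← nsmul_eq_mul, ← sum_const]
    refine sum_le_sum (fun f hf => ?_)
    have h4 := (hu f hf).2.2
    have h5 : 0 ≤ (q - 1) * (S.card : ℤ) := mul_nonneg (by linarith) hs0.le
    have h6 : ((q - 1) * (S.card : ℤ)) ^ 2 ≤ (q * b S (u f) - (q - 1) * b S f) ^ 2 :=
      pow_le_pow_left₀ h5 h4 2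
    nlinarith [sq_nonneg (q * b S (u f) + 7 * ((q - 1) * b S f))]
  rw [hsq] at h1 h2
  have hqk : (0 : ℤ) < q ^ k := by positivity
  have hq1 : (0 : ℤ) < q - 1 := by linarith
  have h4 : ((A.card : ℤ) * (7 * ((q - 1) * (S.card : ℤ)) ^ 2)) * q ^ k ≤
      8 * q ^ 2 * ((N * (q - 1)) * (N * (q - 1) * (S.card : ℤ))) +
        56 * (q - 1) ^ 2 * (N * (q - 1) * (S.card : ℤ)) * q ^ k := by
    have h5 : (8 * q ^ 2 * ∑ f ∈ A, (b S (u f)) ^ 2 + 56 * (q - 1) ^ 2 * ∑ f ∈ A, (b S f) ^ 2)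
        * q ^ k = 8 * q ^ 2 * (q ^ k * ∑ f ∈ A, (b S (u f)) ^ 2) +
          56 * (q - 1) ^ 2 * (∑ f ∈ A, (b S f) ^ 2) * q ^ k := by ring
    calc _ ≤ (8 * q ^ 2 * ∑ f ∈ A, (b S (u f)) ^ 2 + 56 * (q - 1) ^ 2 * ∑ f ∈ A, (b S f) ^ 2)
        * q ^ k := mul_le_mul_of_nonneg_right h3 hqk.le
      _ = _ := h5
      _ ≤ _ := by
        refine add_le_add (mul_le_mul_of_nonneg_left h1 (by positivity))
          (mul_le_mul_of_nonneg_right (mul_le_mul_of_nonneg_left h2 (by positivity)) hqk.le)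
  have h5 : 0 < (q - 1) ^ 2 * (S.card : ℤ) := by positivity
  refine le_of_mul_le_mul_right ?_ h5
  calc _ = ((A.card : ℤ) * (7 * ((q - 1) * (S.card : ℤ)) ^ 2)) * q ^ k := by ring
    _ ≤ _ := h4
    _ = _ := by ring

/-- disjoint supports -/
theorem disj_ineq {S : Finset W} {f g : Dual K W} (h : ∀ s ∈ S, f s = 0 ∨ g s = 0) :
    b S f + b S g - b S (f + g) = ((Fintype.card K : ℤ) - 1) * (S.card : ℤ) := by
  classical
  have h1 : Z S f ∪ Z S g = S := by
    ext s
    rw [mem_union, mem_Z, mem_Z]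
    constructor
    · rintro (h2 | h2) <;> exact h2.1
    · intro hs
      rcases h s hs with h2 | h2
      · exact Or.inl ⟨hs, h2⟩
      · exact Or.inr ⟨hs, h2⟩
  have h2 : Z S f ∩ Z S g = Z S (f + g) := by
    ext s
    rw [mem_inter, mem_Z, mem_Z, mem_Z]
    constructor
    · rintro ⟨h3, h4⟩
      exact ⟨h3.1, by simp [h3.2, h4.2]⟩
    · rintro ⟨hs, h3⟩
      rw [LinearMap.add_apply] at h3
      rcases h s hs with h4 | h4
      · rw [h4, zero_add] at h3
        exact ⟨⟨hs, h4⟩, ⟨hs, h3⟩⟩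
      · rw [h4, add_zero] at h3
        exact ⟨⟨hs, h3⟩, ⟨hs, h4⟩⟩
  have h3 := card_union_add_card_inter (Z S f) (Z S g)
  rw [h1, h2] at h3
  have h4 : (S.card : ℤ) + ((Z S (f + g)).card : ℤ) =
      ((Z S f).card : ℤ) + ((Z S g).card : ℤ) := by exact_mod_cast h3
  unfold b
  linear_combination (Fintype.card K : ℤ) * (-h4)

open Classical in
/-- functionals whose support does not span -/
theorem bad_two {k : ℕ} {S : Finset W} (H : PT K k S) :
    ((univ.filter (fun f : Dual K W =>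
      f ≠ 0 ∧ ∃ g : Dual K W, g ≠ 0 ∧ ∀ s ∈ S, f s = 0 ∨ g s = 0)).card : ℤ) *
      ((Fintype.card K : ℤ) - 1) * (S.card : ℤ) * (Fintype.card K : ℤ) ^ (k + 1) ≤
      3 * (Fintype.card K : ℤ) ^ (finrank K W) * ((Fintype.card K : ℤ) ^ (k + 1) +
        (Fintype.card K : ℤ) ^ (finrank K W) +
        (Fintype.card K : ℤ) * (Fintype.card K : ℤ) ^ (finrank K W)) := by
  set A := univ.filter (fun f : Dual K W =>
      f ≠ 0 ∧ ∃ g : Dual K W, g ≠ 0 ∧ ∀ s ∈ S, f s = 0 ∨ g s = 0) with hA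
  set q : ℤ := (Fintype.card K : ℤ) with hq
  set N : ℤ := q ^ (finrank K W) with hN
  have hq2 : 2 ≤ q := by rw [hq]; exact_mod_cast q_ge_two (K := K)
  have hN0 : 0 < N := by positivity
  have hs0 : (0 : ℤ) < S.card := by
    obtain ⟨s, hs, -⟩ := H.block 0
    exact_mod_cast card_pos.mpr ⟨s, hs⟩
  have hex : ∀ f : Dual K W, ∃ g : Dual K W, f ∈ A → g ≠ 0 ∧ ∀ s ∈ S, f s = 0 ∨ g s = 0 := by
    intro f
    by_cases hf : f ∈ A
    · obtain ⟨g, h1, h2⟩ := (mem_filter.mp hf).2.2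
      exact ⟨g, fun _ => ⟨h1, h2⟩⟩
    · exact ⟨0, fun h => absurd h hf⟩
  choose u hu using hex
  have hsq := sumsq (K := K) S H.zero H.simp
  have h1 : q ^ (k + 1) * ∑ f ∈ A, (b S (u f)) ^ 2 ≤ N * ∑ g : Dual K W, (b S g) ^ 2 := by
    refine fib A u (fun g => (b S g) ^ 2) (fun g => sq_nonneg _) _ _ hN0.le
      (fun f hf => (hu f hf).1) ?_
    intro g hg B hB
    have h2 : (((univ.filter (fun f : Dual K W => ∀ x ∈ T S g, f x = 0)).card : ℤ)) *
        q ^ (k + 1) ≤ N := by rw [hN, hq]; exact_mod_cast few_T H hg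
    have h3 : (B.card : ℤ) ≤
        ((univ.filter (fun f : Dual K W => ∀ x ∈ T S g, f x = 0)).card : ℤ) := by
      exact_mod_cast card_le_card (fun f hf => by
        rw [mem_filter]
        refine ⟨mem_univ _, fun x hx => ?_⟩
        have h4 := hB f hf
        have h5 := (hu f h4.1).2 x (mem_T.mp hx).1
        rw [h4.2] at h5
        exact h5.resolve_right (mem_T.mp hx).2)
    have h6 : (0 : ℤ) < q ^ (k + 1) := by positivity
    exact (mul_le_mul_of_nonneg_right h3 h6.le).trans h2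
  have h1' : q ^ k * ∑ f ∈ A, (b S (f + u f)) ^ 2 ≤ N * ∑ g : Dual K W, (b S g) ^ 2 := by
    refine fib A (fun f => f + u f) (fun g => (b S g) ^ 2) (fun g => sq_nonneg _) _ _ hN0.le
      ?_ ?_
    · intro f hf h0
      apply (mem_filter.mp hf).2.1
      have hall : ∀ s ∈ S, f s = 0 := by
        intro s hs
        have h5 := congrArg (fun z : Dual K W => z s) h0
        simp only [LinearMap.add_apply, LinearMap.zero_apply] at h5
        rcases (hu f hf).2 s hs with h6 | h6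
        · exact h6
        · rw [h6, add_zero] at h5; exact h5
      by_contra hne
      obtain ⟨t, ht, htn⟩ := exists_off H hne
      exact htn (hall t ht)
    · intro g hg B hB
      have h2 : (((univ.filter (fun f : Dual K W => ∀ x ∈ Z S g, f x = 0)).card : ℤ)) *
          q ^ k ≤ N := by rw [hN, hq]; exact_mod_cast few_Z H g
      have h3 : (B.card : ℤ) ≤
          ((univ.filter (fun f : Dual K W => ∀ x ∈ Z S g, f x = 0)).card : ℤ) := by
        exact_mod_cast card_le_card (fun f hf => by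
          rw [mem_filter]
          refine ⟨mem_univ _, fun x hx => ?_⟩
          have h4 := hB f hf
          have h5 := (hu f h4.1).2 x (mem_Z.mp hx).1
          rcases h5 with h6 | h6
          · exact h6
          · have h7 := (mem_Z.mp hx).2
            rw [← h4.2, LinearMap.add_apply, h6, add_zero] at h7
            exact h7)
      have h6 : (0 : ℤ) < q ^ k := by positivity
      exact (mul_le_mul_of_nonneg_right h3 h6.le).trans h2
  have h2 : ∑ f ∈ A, (b S f) ^ 2 ≤ ∑ f : Dual K W, (b S f) ^ 2 :=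
    sum_le_sum_of_subset_of_nonneg (subset_univ _) (fun _ _ _ => sq_nonneg _)
  have h3 : (A.card : ℤ) * (((q - 1) * (S.card : ℤ)) ^ 2) ≤
      3 * (∑ f ∈ A, (b S f) ^ 2 + ∑ f ∈ A, (b S (u f)) ^ 2 + ∑ f ∈ A, (b S (f + u f)) ^ 2) := by
    rw [← sum_add_distrib, ← sum_add_distrib, mul_sum, ← nsmul_eq_mul, ← sum_const]
    refine sum_le_sum (fun f hf => ?_)
    rw [← disj_ineq (hu f hf).2]
    nlinarith [sq_nonneg (b S f - b S (u f)), sq_nonneg (b S f + b S (f + u f)),
      sq_nonneg (b S (u f) + b S (f + u f))]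
  rw [hsq] at h1 h1' h2
  have hqk : (0 : ℤ) < q ^ k := by positivity
  have hq1 : (0 : ℤ) < q - 1 := by linarith
  have h4 : ((A.card : ℤ) * (((q - 1) * (S.card : ℤ)) ^ 2)) * q ^ (k + 1) ≤
      3 * ((N * (q - 1) * (S.card : ℤ)) * q ^ (k + 1) + N * (N * (q - 1) * (S.card : ℤ)) +
        q * (N * (N * (q - 1) * (S.card : ℤ)))) := by
    calc _ ≤ 3 * (∑ f ∈ A, (b S f) ^ 2 + ∑ f ∈ A, (b S (u f)) ^ 2 + ∑ f ∈ A, (b S (f + u f)) ^ 2)
        * q ^ (k + 1) := mul_le_mul_of_nonneg_right h3 (by positivity)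
      _ = 3 * ((∑ f ∈ A, (b S f) ^ 2) * q ^ (k + 1) + q ^ (k + 1) * ∑ f ∈ A, (b S (u f)) ^ 2 +
          q * (q ^ k * ∑ f ∈ A, (b S (f + u f)) ^ 2)) := by ring
      _ ≤ _ := by
        refine mul_le_mul_of_nonneg_left (add_le_add (add_le_add
          (mul_le_mul_of_nonneg_right h2 (by positivity)) h1)
          (mul_le_mul_of_nonneg_left h1' (by linarith))) (by norm_num)
  have h5 : 0 < (q - 1) * (S.card : ℤ) := by positivity
  refine le_of_mul_le_mul_right ?_ h5
  calc _ = ((A.card : ℤ) * (((q - 1) * (S.card : ℤ)) ^ 2)) * q ^ (k + 1) := by ring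
    _ ≤ _ := h4
    _ = _ := by ring

end

/-- numerics -/
theorem numerics {q R N B1 B2 s : ℤ} (hq : 2 ≤ q) (hR : 16 ≤ R) (hN : 16 ≤ N) (hB1 : 0 ≤ B1)
    (hB2 : 0 ≤ B2)
    (h1 : 7 * B1 * s ≤ 8 * q ^ 2 * R * N + 56 * (q - 1) * N)
    (h2 : B2 * (q - 1) * s * q ≤ 3 * N * (q + R + q * R))
    (h3 : 7 * q ^ 2 * R ≤ 2 * s) : B1 + B2 + 1 < N := by
  have hq2 : 4 ≤ q ^ 2 := by nlinarith
  have hq0 : 0 < q := by linarith
  -- first
  have a1 : 112 * (q - 1) ≤ 28 * q ^ 2 := by nlinarith [sq_nonneg (q - 2)]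
  have a2 : 16 * q ^ 2 ≤ R * q ^ 2 := mul_le_mul_of_nonneg_right hR (by positivity)
  have a3 : 49 * B1 * (q ^ 2 * R) ≤ N * (16 * q ^ 2 * R + 112 * (q - 1)) := by
    have := mul_le_mul_of_nonneg_left h3 hB1
    nlinarith
  have a4 : 4 * (16 * q ^ 2 * R + 112 * (q - 1)) ≤ 71 * (q ^ 2 * R) := by nlinarith
  have a5 : (196 * B1) * (q ^ 2 * R) ≤ (71 * N) * (q ^ 2 * R) := by
    have := mul_le_mul_of_nonneg_left a4 (by linarith : (0 : ℤ) ≤ N)
    nlinarith
  have a6 : 0 < q ^ 2 * R := by positivity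
  have a7 : 196 * B1 ≤ 71 * N := le_of_mul_le_mul_right a5 a6
  -- second
  have b1 : 16 * (q + R + q * R) ≤ 25 * (q * R) := by nlinarith
  have b2 : B2 * (q - 1) * q * (7 * q ^ 2 * R) ≤ 6 * N * (q + R + q * R) := by
    have h5 : 0 ≤ B2 * (q - 1) * q := by
      have : 0 ≤ q - 1 := by linarith
      positivity
    have := mul_le_mul_of_nonneg_left h3 h5
    nlinarith
  have b3 : 4 * (q * R) ≤ (q - 1) * q * (q ^ 2 * R) := by
    have h5 : 4 ≤ (q - 1) * q ^ 2 := by nlinarith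
    have h6 : 0 < q * R := by positivity
    nlinarith
  have b4 : (224 * B2) * (q * R) ≤ (75 * N) * (q * R) := by
    have h5 := mul_le_mul_of_nonneg_left b3 hB2
    have h6 := mul_le_mul_of_nonneg_left b1 (by linarith : (0 : ℤ) ≤ N)
    nlinarith
  have b5 : 0 < q * R := by positivity
  have b6 : 224 * B2 ≤ 75 * N := le_of_mul_le_mul_right b4 b5
  omega

end Pool.Agent.Helper74.TBD
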