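import Pool.Agent.Helper74.TBD.Count

set_option autoImplicit false

namespace Pool.Agent.Helper74.TBD

open Finset Module

variable {K : Type} [Field K] {W : Type} [AddCommGroup W] [Module K W]

/-- critical exponent exceeds `k` -/
def IsBlock (K : Type) [Field K] {W : Type} [AddCommGroup W] [Module K W] (k : ℕ)
    (X : Finset W) : Prop :=
  ∀ f : W →ₗ[K] (Fin k → K), ∃ s ∈ X, f s = 0

/-- hypotheses -/
structure PT (K : Type) [Field K] {W : Type} [AddCommGroup W] [Module K W] (k : ℕ)
    (S : Finset W) : Prop where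
  zero : (0 : W) ∉ S
  simp : ∀ s ∈ S, ∀ t ∈ S, ∀ c : K, s = c • t → s = t
  block : IsBlock K k S
  pt : ∀ t ∈ S, ∃ F : W →ₗ[K] (Fin k → K), F t = 0 ∧ ∀ s ∈ S, s ≠ t → F s ≠ 0
  span : Submodule.span K (S : Set W) = ⊤

theorem block_Z {k : ℕ} {X : Finset W} (hX : IsBlock K (k + 1) X) (f : Dual K W) :
    IsBlock K k (Z X f) := by
  intro F
  obtain ⟨s, hs, h0⟩ := hX (LinearMap.pi (Fin.cons f (fun j => (LinearMap.proj j).comp F)))
  have h1 := congrFun h0 0
  simp only [LinearMap.pi_apply, Fin.cons_zero, Pi.zero_apply] at h1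
  refine ⟨s, mem_Z.mpr ⟨hs, h1⟩, ?_⟩
  funext j
  have h2 := congrFun h0 j.succ
  simpa only [LinearMap.pi_apply, Fin.cons_succ, Pi.zero_apply, LinearMap.comp_apply,
    LinearMap.proj_apply] using h2

theorem zero_notMem_Z {X : Finset W} (h0 : (0 : W) ∉ X) (f : Dual K W) : (0 : W) ∉ Z X f :=
  fun h => h0 (mem_Z.mp h).1

theorem zero_notMem_T {X : Finset W} (h0 : (0 : W) ∉ X) (f : Dual K W) : (0 : W) ∉ T X f :=
  fun h => h0 (mem_T.mp h).1

/-- a `k`-block has rank at least `k + 1` -/
theorem rank_block [FiniteDimensional K W] {k : ℕ} {X : Finset W} (hX : IsBlock K k X)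
    (h0 : (0 : W) ∉ X) : k + 1 ≤ finrank K (Submodule.span K (X : Set W)) := by
  by_contra hcon
  have h1 : finrank K (Submodule.span K (X : Set W)) ≤ finrank K (Fin k → K) := by
    rw [finrank_fin_fun]; omega
  obtain ⟨g, hg⟩ := (finrank_le_iff_exists_linearMap (R := K)).mp h1
  obtain ⟨F, hF⟩ := LinearMap.exists_extend g
  obtain ⟨s, hs, hs0⟩ := hX F
  have h2 : g ⟨s, Submodule.subset_span hs⟩ = 0 := by
    rw [← hF]
    exact hs0
  have h3 := hg (h2.trans (map_zero g).symm)
  have h4 : s = 0 := congrArg Subtype.val h3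
  exact h0 (h4 ▸ hs)

/-- some point is off `g` -/
theorem exists_off {k : ℕ} {S : Finset W} (H : PT K k S) {g : Dual K W} (hg : g ≠ 0) :
    ∃ t ∈ S, g t ≠ 0 := by
  by_contra hcon
  push Not at hcon
  apply hg
  have h1 : Submodule.span K (S : Set W) ≤ LinearMap.ker g := by
    rw [Submodule.span_le]
    intro x hx
    exact hcon x hx
  rw [H.span] at h1
  ext x
  exact h1 (Submodule.mem_top (x := x))

/-- every value is attained on the support -/
theorem onto_T {k : ℕ} {S : Finset W} (H : PT K k S) {g : Dual K W}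
    {F : W →ₗ[K] (Fin k → K)} (hF : ∀ s ∈ S, g s = 0 → F s ≠ 0) (y : Fin k → K) :
    ∃ s ∈ T S g, F s = - (g s • y) := by
  obtain ⟨s, hs, h0⟩ := H.block (F + g.smulRight y)
  simp only [LinearMap.add_apply, LinearMap.smulRight_apply] at h0
  refine ⟨s, mem_T.mpr ⟨hs, fun hgs => ?_⟩, eq_neg_of_add_eq_zero_left h0⟩
  rw [hgs, zero_smul, add_zero] at h0
  exact hF s hs hgs h0

theorem pt_good {k : ℕ} {S : Finset W} (H : PT K k S) {g : Dual K W} (hg : g ≠ 0) :
    ∃ t ∈ T S g, ∃ F : W →ₗ[K] (Fin k → K), F t = 0 ∧ ∀ s ∈ S, g s = 0 → F s ≠ 0 := by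
  obtain ⟨t, ht, hgt⟩ := exists_off H hg
  obtain ⟨F, hF0, hF⟩ := H.pt t ht
  refine ⟨t, mem_T.mpr ⟨ht, hgt⟩, F, hF0, fun s hs hgs => hF s hs ?_⟩
  rintro rfl
  exact hgt hgs

/-- the support of a nonzero functional has at least `q ^ k` points -/
theorem card_T [Fintype K] {k : ℕ} {S : Finset W} (H : PT K k S) {g : Dual K W} (hg : g ≠ 0) :
    (Fintype.card K) ^ k ≤ (T S g).card := by
  classical
  obtain ⟨t, ht, F, hF0, hF⟩ := pt_good H hg
  have h1 : (univ : Finset (Fin k → K)) ⊆ (T S g).image (fun s => - ((g s)⁻¹ • F s)) := by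
    intro y _
    obtain ⟨s, hs, hsy⟩ := onto_T H hF y
    refine mem_image.mpr ⟨s, hs, ?_⟩
    rw [hsy, smul_neg, smul_smul, inv_mul_cancel₀ (mem_T.mp hs).2, one_smul, neg_neg]
  have h2 := card_le_card h1
  have h3 : (univ : Finset (Fin k → K)).card = (Fintype.card K) ^ k := by
    rw [card_univ]; simp
  rw [h3] at h2
  exact h2.trans card_image_le

/-- the support of a nonzero functional has rank at least `k + 1` -/
theorem rank_T [FiniteDimensional K W] {k : ℕ} {S : Finset W} (H : PT K k S) {g : Dual K W}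
    (hg : g ≠ 0) : k + 1 ≤ finrank K (Submodule.span K (T S g : Set W)) := by
  obtain ⟨t, ht, F, hF0, hF⟩ := pt_good H hg
  set U := Submodule.span K (T S g : Set W) with hU
  have h1 : LinearMap.range (F.domRestrict U) = ⊤ := by
    rw [eq_top_iff]
    intro y _
    obtain ⟨s, hs, hsy⟩ := onto_T H hF y
    refine ⟨⟨- ((g s)⁻¹ • s), U.neg_mem (U.smul_mem _ (Submodule.subset_span hs))⟩, ?_⟩
    simp only [LinearMap.domRestrict_apply, map_neg, map_smul]
    rw [hsy, smul_neg, smul_smul, inv_mul_cancel₀ (mem_T.mp hs).2, one_smul, neg_neg]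
  have h2 := LinearMap.finrank_range_add_finrank_ker (F.domRestrict U)
  rw [h1, finrank_top, finrank_fin_fun] at h2
  have h3 : 0 < finrank K (LinearMap.ker (F.domRestrict U)) := by
    rw [finrank_pos_iff_exists_ne_zero]
    refine ⟨⟨⟨t, Submodule.subset_span ht⟩, hF0⟩, ?_⟩
    intro h4
    have h5 : t = 0 := congrArg (fun z => ((z : LinearMap.ker (F.domRestrict U)) : U).1) h4
    exact H.zero (h5 ▸ (mem_T.mp ht).1)
  omega

/-- the geometric sum `1 + q + ... + q ^ k` -/
def theta (q k : ℕ) : ℕ := ∑ i ∈ range (k + 1), q ^ i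

theorem theta_zero (q : ℕ) : theta q 0 = 1 := by simp [theta]

theorem theta_succ (q k : ℕ) : theta q (k + 1) = q * theta q k + 1 := by
  unfold theta
  rw [sum_range_succ', mul_sum]
  congr 1
  refine sum_congr rfl (fun i _ => by ring)

section Count

variable [Fintype K] [FiniteDimensional K W] [Fintype (Dual K W)]

theorem q_ge_two : 2 ≤ Fintype.card K := by
  have := Fintype.one_lt_card (α := K)
  omega

theorem sum_b (X : Finset W) (h0 : (0 : W) ∉ X) : ∑ f : Dual K W, b X f = 0 := by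
  have h1 : ∀ f : Dual K W, b X f = ∑ x ∈ X, ((Fintype.card K : ℤ) * ind f x - 1) :=
    fun f => b_eq X f
  simp only [h1]
  rw [sum_comm]
  refine sum_eq_zero (fun x hx => ?_)
  rw [sum_sub_distrib, ← mul_sum, sum_ind_one (fun h => h0 (h ▸ hx))]
  have h5 := cardDual (K := K) (W := W)
  simp only [sum_const, card_univ, nsmul_eq_mul, mul_one]
  rw [h5]; push_cast; ring

theorem b_zero (X : Finset W) : b X (0 : Dual K W) = ((Fintype.card K : ℤ) - 1) * X.card := by
  classical
  have h1 : Z X (0 : Dual K W) = X := by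
    ext x
    rw [mem_Z]
    simp
  unfold b
  rw [h1]
  ring

/-- Bose-Burton bound -/
theorem card_block {k : ℕ} : ∀ {X : Finset W}, IsBlock K k X → (0 : W) ∉ X →
    theta (Fintype.card K) k ≤ X.card := by
  classical
  induction k with
  | zero =>
    intro X hX _
    rw [theta_zero]
    obtain ⟨s, hs, -⟩ := hX 0
    exact card_pos.mpr ⟨s, hs⟩
  | succ k ih =>
    intro X hX h0
    rw [theta_succ]
    by_contra hcon
    have hlt : X.card ≤ Fintype.card K * theta (Fintype.card K) k := by omega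
    have h1 := sum_b (K := K) X h0
    rw [← add_sum_erase univ _ (mem_univ (0 : Dual K W)), b_zero] at h1
    have h2 : 0 ≤ ∑ f ∈ (univ : Finset (Dual K W)).erase 0, b X f := by
      refine sum_nonneg (fun f _ => ?_)
      have h3 := ih (block_Z hX f) (zero_notMem_Z h0 f)
      unfold b
      have h4 : (X.card : ℤ) ≤ (Fintype.card K : ℤ) * (theta (Fintype.card K) k : ℤ) := by
        exact_mod_cast hlt
      have h5 : (theta (Fintype.card K) k : ℤ) ≤ ((Z X f).card : ℤ) := by exact_mod_cast h3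
      have h6 : (0 : ℤ) ≤ (Fintype.card K : ℤ) := by positivity
      nlinarith
    obtain ⟨s, hs, -⟩ := hX 0
    have h7 : (0 : ℤ) < X.card := by
      exact_mod_cast card_pos.mpr ⟨s, hs⟩
    have h8 : (2 : ℤ) ≤ (Fintype.card K : ℤ) := by exact_mod_cast q_ge_two (K := K)
    nlinarith

open Classical in
/-- functionals vanishing on a support -/
theorem few_T {k : ℕ} {S : Finset W} (H : PT K k S) {g : Dual K W} (hg : g ≠ 0) :
    (univ.filter (fun f : Dual K W => ∀ x ∈ T S g, f x = 0)).card * (Fintype.card K) ^ (k + 1) ≤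
      (Fintype.card K) ^ (finrank K W) := by
  have h1 := cardAnnSet (K := K) (T S g : Set W)
  rw [← h1]
  have h2 := rank_T H hg
  refine Nat.mul_le_mul (le_of_eq ?_) (Nat.pow_le_pow_right (by have := q_ge_two (K := K); omega) h2)
  congr 1
  ext f
  simp only [mem_filter, mem_univ, true_and, mem_coe]

open Classical in
/-- functionals vanishing on a zero set -/
theorem few_Z {k : ℕ} {S : Finset W} (H : PT K k S) (g : Dual K W) :
    (univ.filter (fun f : Dual K W => ∀ x ∈ Z S g, f x = 0)).card * (Fintype.card K) ^ k ≤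
      (Fintype.card K) ^ (finrank K W) := by
  have h1 := cardAnnSet (K := K) (Z S g : Set W)
  rw [← h1]
  have h2 : k ≤ finrank K (Submodule.span K (Z S g : Set W)) := by
    rcases k with _ | k
    · exact Nat.zero_le _
    · exact rank_block (block_Z H.block g) (zero_notMem_Z H.zero g)
  refine Nat.mul_le_mul (le_of_eq ?_) (Nat.pow_le_pow_right (by have := q_ge_two (K := K); omega) h2)
  congr 1
  ext f
  simp only [mem_filter, mem_univ, true_and, mem_coe]

open Classical in
/-- functionals without zeros on a support -/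
theorem few_nz {k : ℕ} {S : Finset W} (H : PT K k S) {g : Dual K W} (hg : g ≠ 0) :
    ((univ.filter (fun f : Dual K W => ∀ x ∈ T S g, f x ≠ 0)).card : ℤ) *
      (Fintype.card K : ℤ) ^ k ≤
      (Fintype.card K : ℤ) ^ (finrank K W) * ((Fintype.card K : ℤ) - 1) := by
  have h1 := sumsq (K := K) (T S g) (zero_notMem_T H.zero g)
    (fun x hx y hy c hc => H.simp x (mem_T.mp hx).1 y (mem_T.mp hy).1 c hc)
  set N := univ.filter (fun f : Dual K W => ∀ x ∈ T S g, f x ≠ 0) with hN
  have h2 : ∑ f ∈ N, (b (T S g) f) ^ 2 ≤ ∑ f : Dual K W, (b (T S g) f) ^ 2 :=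
    sum_le_sum_of_subset_of_nonneg (subset_univ _) (fun _ _ _ => sq_nonneg _)
  have h3 : ∀ f ∈ N, (b (T S g) f) ^ 2 = ((T S g).card : ℤ) ^ 2 := by
    intro f hf
    have h4 : Z (T S g) f = ∅ := by
      apply eq_empty_of_forall_notMem
      intro x hx
      rw [mem_Z] at hx
      exact (mem_filter.mp hf).2 x hx.1 hx.2
    unfold b
    rw [h4]
    simp
  rw [sum_congr rfl h3, h1] at h2
  simp only [sum_const, nsmul_eq_mul] at h2
  have h5 : ((Fintype.card K : ℤ)) ^ k ≤ ((T S g).card : ℤ) := by exact_mod_cast card_T H hg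
  have h6 : (0 : ℤ) < (Fintype.card K : ℤ) ^ k := by
    have := q_ge_two (K := K); positivity
  have h7 : (0 : ℤ) < ((T S g).card : ℤ) := lt_of_lt_of_le h6 h5
  have h8 : (N.card : ℤ) * ((T S g).card : ℤ) ≤
      (Fintype.card K : ℤ) ^ (finrank K W) * ((Fintype.card K : ℤ) - 1) := by
    have h9 : ((N.card : ℤ) * ((T S g).card : ℤ)) * ((T S g).card : ℤ) ≤
      ((Fintype.card K : ℤ) ^ (finrank K W) * ((Fintype.card K : ℤ) - 1)) * ((T S g).card : ℤ) := by
      rw [mul_assoc, ← sq]; exact h2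
    exact le_of_mul_le_mul_right h9 h7
  have h10 : (0 : ℤ) ≤ (N.card : ℤ) := by positivity
  nlinarith

end Count

end Pool.Agent.Helper74.TBD
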