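import Mathlib

set_option autoImplicit false

namespace Pool.Agent.Helper74.TBD

open Finset Module

variable {K : Type} [Field K] [Fintype K] {W : Type} [AddCommGroup W] [Module K W]
  [FiniteDimensional K W] [Fintype (Dual K W)]

open Classical in
/-- the number of functionals vanishing on a subspace -/
theorem cardAnn (U : Submodule K W) :
    (univ.filter (fun f : Dual K W => ∀ x ∈ U, f x = 0)).card *
      (Fintype.card K) ^ (finrank K U) = (Fintype.card K) ^ (finrank K W) := by
  have h1 : (univ.filter (fun f : Dual K W => ∀ x ∈ U, f x = 0)).card =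
      (Fintype.card K) ^ (finrank K U.dualAnnihilator) := by
    rw [← Fintype.card_subtype]
    have h2 := Module.card_eq_pow_finrank (K := K) (V := U.dualAnnihilator)
    rw [← h2]
    refine Fintype.card_congr (Equiv.subtypeEquivRight (fun f => ?_))
    rw [Submodule.mem_dualAnnihilator]
  rw [h1, ← pow_add]
  congr 1
  have := Subspace.finrank_add_finrank_dualAnnihilator_eq U
  omega

open Classical in
theorem cardAnnSet (A : Set W) :
    (univ.filter (fun f : Dual K W => ∀ x ∈ A, f x = 0)).card *
      (Fintype.card K) ^ (finrank K (Submodule.span K A)) =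
      (Fintype.card K) ^ (finrank K W) := by
  rw [← cardAnn (K := K) (Submodule.span K A)]
  congr 2
  ext f
  simp only [mem_filter, mem_univ, true_and]
  constructor
  · intro h x hx
    have h1 : Submodule.span K A ≤ LinearMap.ker f := by
      rw [Submodule.span_le]
      intro y hy
      exact h y hy
    exact h1 hx
  · intro h x hx
    exact h x (Submodule.subset_span hx)

theorem cardDual : Fintype.card (Dual K W) = (Fintype.card K) ^ (finrank K W) := by
  rw [Module.card_eq_pow_finrank (K := K) (V := Dual K W), Subspace.dual_finrank_eq]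

open Classical in
/-- zero indicator -/
noncomputable def ind (f : Dual K W) (x : W) : ℤ := if f x = 0 then 1 else 0

theorem sum_ind_one {x : W} (hx : x ≠ 0) :
    (Fintype.card K : ℤ) * ∑ f : Dual K W, ind f x = (Fintype.card K : ℤ) ^ (finrank K W) := by
  classical
  have h1 := cardAnnSet (K := K) ({x} : Set W)
  rw [finrank_span_singleton hx, pow_one] at h1
  have h2 : ∑ f : Dual K W, ind f x =
      ((univ.filter (fun f : Dual K W => ∀ y ∈ ({x} : Set W), f y = 0)).card : ℤ) := by
    rw [card_filter]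
    push_cast
    refine sum_congr rfl (fun f _ => ?_)
    simp [ind]
  rw [h2, mul_comm]
  exact_mod_cast h1

theorem sum_ind_two {x y : W} (hx : x ≠ 0) (hxy : ∀ a : K, a • x ≠ y) :
    (Fintype.card K : ℤ) ^ 2 * ∑ f : Dual K W, ind f x * ind f y =
      (Fintype.card K : ℤ) ^ (finrank K W) := by
  classical
  have h1 := cardAnnSet (K := K) (Set.range ![x, y])
  have hli : LinearIndependent K ![x, y] := (LinearIndependent.pair_iff' hx).mpr hxy
  rw [finrank_span_eq_card hli, Fintype.card_fin] at h1
  have h2 : ∑ f : Dual K W, ind f x * ind f y =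
      ((univ.filter (fun f : Dual K W => ∀ z ∈ Set.range ![x, y], f z = 0)).card : ℤ) := by
    rw [card_filter]
    push_cast
    refine sum_congr rfl (fun f _ => ?_)
    by_cases hfx : f x = 0 <;> by_cases hfy : f y = 0 <;> simp [ind, hfx, hfy]
  rw [h2, mul_comm]
  exact_mod_cast h1

open Classical in
/-- the zero set -/
noncomputable def Z (S : Finset W) (f : Dual K W) : Finset W := S.filter (fun s => f s = 0)

open Classical in
/-- the support -/
noncomputable def T (S : Finset W) (f : Dual K W) : Finset W := S.filter (fun s => f s ≠ 0)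

/-- normalised number of zeros -/
noncomputable def b (S : Finset W) (f : Dual K W) : ℤ :=
  (Fintype.card K : ℤ) * ((Z S f).card : ℤ) - (S.card : ℤ)

omit [Fintype K] [FiniteDimensional K W] [Fintype (Dual K W)] in
theorem mem_Z {S : Finset W} {f : Dual K W} {s : W} : s ∈ Z S f ↔ s ∈ S ∧ f s = 0 := by
  classical
  simp [Z]

omit [Fintype K] [FiniteDimensional K W] [Fintype (Dual K W)] in
theorem mem_T {S : Finset W} {f : Dual K W} {s : W} : s ∈ T S f ↔ s ∈ S ∧ f s ≠ 0 := by
  classical
  simp [T]

omit [Fintype K] [FiniteDimensional K W] [Fintype (Dual K W)] in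
theorem card_Z_add_card_T (S : Finset W) (f : Dual K W) : (Z S f).card + (T S f).card = S.card := by
  classical
  exact card_filter_add_card_filter_not (s := S) (fun s => f s = 0)

omit [FiniteDimensional K W] [Fintype (Dual K W)] in
theorem b_eq (S : Finset W) (f : Dual K W) :
    b S f = ∑ x ∈ S, ((Fintype.card K : ℤ) * ind f x - 1) := by
  classical
  rw [sum_sub_distrib, ← mul_sum]
  simp [b, Z, ind]

theorem sum_pair {x y : W} (hx : x ≠ 0) (hy : y ≠ 0) (hxy : ∀ a : K, a • x ≠ y) :
    ∑ f : Dual K W, ((Fintype.card K : ℤ) * ind f x - 1) * ((Fintype.card K : ℤ) * ind f y - 1)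
      = 0 := by
  have h1 := sum_ind_two hx hxy
  have h2 := sum_ind_one (K := K) hx
  have h3 := sum_ind_one (K := K) hy
  have h4 : ∑ f : Dual K W, ((Fintype.card K : ℤ) * ind f x - 1) *
      ((Fintype.card K : ℤ) * ind f y - 1) =
      (Fintype.card K : ℤ) ^ 2 * ∑ f : Dual K W, ind f x * ind f y -
      (Fintype.card K : ℤ) * ∑ f : Dual K W, ind f x -
      (Fintype.card K : ℤ) * ∑ f : Dual K W, ind f y + ∑ f : Dual K W, (1 : ℤ) := by
    rw [mul_sum, mul_sum, mul_sum, ← sum_sub_distrib, ← sum_sub_distrib, ← sum_add_distrib]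
    refine sum_congr rfl (fun f _ => by ring)
  rw [h4, h1, h2, h3]
  have h5 := cardDual (K := K) (W := W)
  have h6 : ∑ f : Dual K W, (1 : ℤ) = (Fintype.card K : ℤ) ^ (finrank K W) := by
    simp only [sum_const, card_univ, nsmul_eq_mul, mul_one]
    rw [h5]; push_cast; rfl
  rw [h6]
  ring

theorem sum_diag {x : W} (hx : x ≠ 0) :
    ∑ f : Dual K W, ((Fintype.card K : ℤ) * ind f x - 1) * ((Fintype.card K : ℤ) * ind f x - 1)
      = (Fintype.card K : ℤ) ^ (finrank K W) * ((Fintype.card K : ℤ) - 1) := by
  have h2 := sum_ind_one (K := K) hx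
  have h4 : ∑ f : Dual K W, ((Fintype.card K : ℤ) * ind f x - 1) *
      ((Fintype.card K : ℤ) * ind f x - 1) =
      (Fintype.card K : ℤ) * ((Fintype.card K : ℤ) * ∑ f : Dual K W, ind f x) -
      2 * ((Fintype.card K : ℤ) * ∑ f : Dual K W, ind f x) + ∑ f : Dual K W, (1 : ℤ) := by
    rw [mul_sum, mul_sum, mul_sum, ← sum_sub_distrib, ← sum_add_distrib]
    refine sum_congr rfl (fun f _ => ?_)
    have h7 : ind f x * ind f x = ind f x := by
      unfold ind
      split_ifs <;> simp
    linear_combination ((Fintype.card K : ℤ)) ^ 2 * h7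
  rw [h4, h2]
  have h5 := cardDual (K := K) (W := W)
  have h6 : ∑ f : Dual K W, (1 : ℤ) = (Fintype.card K : ℤ) ^ (finrank K W) := by
    simp only [sum_const, card_univ, nsmul_eq_mul, mul_one]
    rw [h5]; push_cast; rfl
  rw [h6]
  ring

/-- second moment -/
theorem sumsq (X : Finset W) (h0 : (0 : W) ∉ X)
    (hs : ∀ x ∈ X, ∀ y ∈ X, ∀ c : K, x = c • y → x = y) :
    ∑ f : Dual K W, (b X f) ^ 2 =
      (Fintype.card K : ℤ) ^ (finrank K W) * ((Fintype.card K : ℤ) - 1) * (X.card : ℤ) := by
  classical
  have h1 : ∀ f : Dual K W, (b X f) ^ 2 = ∑ x ∈ X, ∑ y ∈ X,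
      ((Fintype.card K : ℤ) * ind f x - 1) * ((Fintype.card K : ℤ) * ind f y - 1) := by
    intro f
    rw [b_eq, sq, sum_mul_sum]
  simp only [h1]
  rw [sum_comm]
  have h2 : ∀ x ∈ X, ∑ f : Dual K W, ∑ y ∈ X,
      ((Fintype.card K : ℤ) * ind f x - 1) * ((Fintype.card K : ℤ) * ind f y - 1) =
      (Fintype.card K : ℤ) ^ (finrank K W) * ((Fintype.card K : ℤ) - 1) := by
    intro x hx
    rw [sum_comm, sum_eq_single_of_mem x hx]
    · exact sum_diag (fun h => h0 (h ▸ hx))
    · intro y hy hyx
      refine sum_pair (fun h => h0 (h ▸ hx)) (fun h => h0 (h ▸ hy)) (fun a ha => hyx ?_)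
      exact hs y hy x hx a ha.symm
  rw [sum_congr rfl h2]
  simp only [sum_const, nsmul_eq_mul]
  ring

end Pool.Agent.Helper74.TBD
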