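import Pool.Agent.Helper74.TBD.Main

set_option autoImplicit false

namespace Pool.Agent.Helper74.TBD

open Helper12.TB

variable {K : Type} [Field K] [Fintype K] {r k : ℕ}

/-- dense blocks -/
theorem dense {S : Finset (Fin r → K)} (H : Tang k S)
    (h1 : 7 * (Fintype.card K) ^ (Module.finrank K (Submodule.span K (S : Set (Fin r → K))) + 2) ≤
      2 * (Fintype.card K) ^ k * S.card) :
    ∃ X : Finset (Fin r → K), X ⊆ S ∧
      (∀ s ∈ S, s ∈ Submodule.span K (X : Set (Fin r → K)) → s ∈ X) ∧
      Module.finrank K (Submodule.span K (X : Set (Fin r → K))) + 1 =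
        Module.finrank K (Submodule.span K (S : Set (Fin r → K))) ∧
      Submodule.span K ((S : Set (Fin r → K)) \ (X : Set (Fin r → K))) =
        Submodule.span K (S : Set (Fin r → K)) := by
  have hne : S.Nonempty := by
    obtain ⟨s, hs, -⟩ := H.block 0
    exact ⟨s, hs⟩
  by_cases h2 : Module.finrank K (Submodule.span K (S : Set (Fin r → K))) ≤ k + 3
  · obtain ⟨X, hX1, hX2, hX3⟩ := exists_copoint H.zero hne
    refine ⟨X, hX1, hX2, hX3, ?_⟩
    by_contra hc
    obtain ⟨-, h⟩ := partA H hX1 hX2 hX3 hc
    have h6 : Submodule.span K ((S : Set (Fin r → K)) \ (X : Set (Fin r → K))) <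
        Submodule.span K (S : Set (Fin r → K)) :=
      lt_of_le_of_ne (Submodule.span_mono Set.sdiff_subset) hc
    have h7 := Submodule.finrank_lt_finrank_of_lt h6
    omega
  · have h3 := pt_lift H
    obtain ⟨f, hf, hsp, hco⟩ := exists_good h3 (by omega) (by rw [card_lift]; exact h1)
    exact copoint_of hf hsp hco

/-- blocks of small rank satisfy the density condition -/
theorem dense_of_rank {S : Finset (Fin r → K)} (H : Tang k S)
    (h1 : Module.finrank K (Submodule.span K (S : Set (Fin r → K))) + 3 ≤ 2 * k) :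
    7 * (Fintype.card K) ^ (Module.finrank K (Submodule.span K (S : Set (Fin r → K))) + 2) ≤
      2 * (Fintype.card K) ^ k * S.card := by
  classical
  have hfin : Finite (Module.Dual K (Fin r → K)) := Module.finite_of_finite K
  let _ : Fintype (Module.Dual K (Fin r → K)) := Fintype.ofFinite _
  have hq2 : 2 ≤ Fintype.card K := q_ge_two (K := K)
  have h2 := card_block (K := K) H.block H.zero
  have hrk := rank_block (K := K) H.block H.zero
  obtain ⟨j, rfl⟩ : ∃ j, k = j + 2 := ⟨k - 2, by omega⟩
  have h3 : ((Fintype.card K) ^ 2 + Fintype.card K + 1) * (Fintype.card K) ^ j ≤ S.card := by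
    refine le_trans ?_ h2
    unfold theta
    rw [Finset.sum_range_succ, Finset.sum_range_succ, Finset.sum_range_succ]
    have : 0 ≤ ∑ i ∈ Finset.range j, (Fintype.card K) ^ i := Nat.zero_le _
    calc _ = (Fintype.card K) ^ j + (Fintype.card K) ^ (j + 1) + (Fintype.card K) ^ (j + 2) := by
          ring
      _ ≤ _ := by omega
  have h4 : 7 * Fintype.card K ≤ 2 * ((Fintype.card K) ^ 2 + Fintype.card K + 1) := by
    nlinarith
  calc 7 * (Fintype.card K) ^ (Module.finrank K (Submodule.span K (S : Set (Fin r → K))) + 2)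
      ≤ 7 * (Fintype.card K) ^ (j + 2 + (j + 1)) := by
        apply Nat.mul_le_mul_left
        exact Nat.pow_le_pow_right (by omega) (by omega)
    _ = (Fintype.card K) ^ (j + 2) * ((7 * Fintype.card K) * (Fintype.card K) ^ j) := by ring
    _ ≤ (Fintype.card K) ^ (j + 2) *
        ((2 * ((Fintype.card K) ^ 2 + Fintype.card K + 1)) * (Fintype.card K) ^ j) := by
        apply Nat.mul_le_mul_left
        apply Nat.mul_le_mul_right
        exact h4
    _ = 2 * (Fintype.card K) ^ (j + 2) *
        (((Fintype.card K) ^ 2 + Fintype.card K + 1) * (Fintype.card K) ^ j) := by ring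
    _ ≤ 2 * (Fintype.card K) ^ (j + 2) * S.card := Nat.mul_le_mul_left _ h3

/-- small blocks -/
theorem small {S : Finset (Fin r → K)} (H : Tang k S)
    (h1 : S.card ≤ 2 * (Fintype.card K) ^ k + 1 + ∑ i ∈ Finset.range k, (Fintype.card K) ^ i)
    {X : Finset (Fin r → K)} (hX1 : X ⊆ S)
    (hX2 : ∀ s ∈ S, s ∈ Submodule.span K (X : Set (Fin r → K)) → s ∈ X)
    (hX3 : Module.finrank K (Submodule.span K (X : Set (Fin r → K))) + 1 =
        Module.finrank K (Submodule.span K (S : Set (Fin r → K)))) :
    Submodule.span K ((S : Set (Fin r → K)) \ (X : Set (Fin r → K))) =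
        Submodule.span K (S : Set (Fin r → K)) := by
  classical
  have hfin : Finite (Module.Dual K (Fin r → K)) := Module.finite_of_finite K
  let _ : Fintype (Module.Dual K (Fin r → K)) := Fintype.ofFinite _
  by_contra hc
  have hXA := (partA H hX1 hX2 hX3 hc).1
  obtain ⟨Y, hY1, hY2, hY3, hY4⟩ := exists_copoint_above (S := S) (Y := S \ X)
    Finset.sdiff_subset (by rw [Finset.coe_sdiff]; exact hc)
  have hSY : S \ Y ⊆ X := by
    intro s hs
    rw [Finset.mem_sdiff] at hs
    by_contra h
    exact hs.2 (hY1 (Finset.mem_sdiff.mpr ⟨hs.1, h⟩))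
  have hYc : Submodule.span K ((S : Set (Fin r → K)) \ (Y : Set (Fin r → K))) ≠
      Submodule.span K (S : Set (Fin r → K)) := by
    intro h2
    have h3 : Submodule.span K ((S : Set (Fin r → K)) \ (Y : Set (Fin r → K))) ≤
        Submodule.span K (X : Set (Fin r → K)) := by
      rw [← Finset.coe_sdiff]
      exact Submodule.span_mono (by exact_mod_cast hSY)
    rw [h2] at h3
    have h4 := Submodule.finrank_mono h3
    omega
  have hYA := (partA H hY2 hY3 hY4 hYc).1
  obtain ⟨h, hC, -⟩ := exists_cop hX1 hX2 hX3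
  obtain ⟨g, hD, -⟩ := exists_cop hY2 hY3 hY4
  -- the intersection
  have hint : ∑ i ∈ Finset.range k, (Fintype.card K) ^ i ≤ (X ∩ Y).card := by
    rcases k with _ | k
    · simp
    · have h2 := block_Z (K := K) H.block (h + g)
      have h3 := card_block (K := K) h2 (zero_notMem_Z H.zero (h + g))
      have h4 : Z S (h + g) = X ∩ Y := by
        ext s
        rw [mem_Z, Finset.mem_inter, LinearMap.add_apply]
        constructor
        · rintro ⟨hs, h5⟩
          by_cases hsX : s ∈ X
          · refine ⟨hsX, ?_⟩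
            rw [hC.zero s hsX, zero_add] at h5
            by_contra hsY
            exact hD.nz s hs hsY h5
          · have hsY : s ∈ Y := hY1 (Finset.mem_sdiff.mpr ⟨hs, hsX⟩)
            rw [hD.zero s hsY, add_zero] at h5
            exact absurd h5 (hC.nz s hs hsX)
        · rintro ⟨h5, h6⟩
          exact ⟨hX1 h5, by rw [hC.zero s h5, hD.zero s h6, add_zero]⟩
      rw [h4] at h3
      exact h3
  have h2 : S.card = (S \ X).card + (S \ Y).card + (X ∩ Y).card := by
    have h3 : S = (S \ X) ∪ ((S \ Y) ∪ (X ∩ Y)) := by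
      ext s
      simp only [Finset.mem_union, Finset.mem_sdiff, Finset.mem_inter]
      constructor
      · intro hs
        by_cases h4 : s ∈ X <;> by_cases h5 : s ∈ Y <;> simp [hs, h4, h5]
      · rintro (h4 | h4 | h4)
        · exact h4.1
        · exact h4.1
        · exact hX1 h4.1
    have h4 : Disjoint (S \ X) ((S \ Y) ∪ (X ∩ Y)) := by
      rw [Finset.disjoint_left]
      intro s hs hs2
      rw [Finset.mem_union] at hs2
      rcases hs2 with hs2 | hs2
      · exact (Finset.mem_sdiff.mp hs).2 (hSY hs2)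
      · exact (Finset.mem_sdiff.mp hs).2 (Finset.mem_inter.mp hs2).1
    have h5 : Disjoint (S \ Y) (X ∩ Y) := by
      rw [Finset.disjoint_left]
      intro s hs hs2
      exact (Finset.mem_sdiff.mp hs).2 (Finset.mem_inter.mp hs2).2
    conv_lhs => rw [h3]
    rw [Finset.card_union_of_disjoint h4, Finset.card_union_of_disjoint h5]
    omega
  omega

end Pool.Agent.Helper74.TBD
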