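import Pool.Agent.Helper74.TBD.Bad
import Pool.Agent.Helper12.TB.Basic

set_option autoImplicit false

namespace Pool.Agent.Helper74.TBD

open Finset Module

section

variable {K : Type} [Field K] [Fintype K] {W : Type} [AddCommGroup W] [Module K W]
  [FiniteDimensional K W]

/-- a good functional exists if there are many points -/
theorem exists_good {k : ℕ} {S : Finset W} (H : PT K k S) (hr : k + 4 ≤ finrank K W)
    (hB : 7 * (Fintype.card K) ^ (finrank K W + 2) ≤ 2 * (Fintype.card K) ^ k * S.card) :
    ∃ f : Dual K W, f ≠ 0 ∧ Submodule.span K (Z S f : Set W) = LinearMap.ker f ∧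
      ∀ g : Dual K W, (∀ s ∈ S, f s = 0 ∨ g s = 0) → g = 0 := by
  classical
  have : Finite (Dual K W) := Module.finite_of_finite K
  let _ : Fintype (Dual K W) := Fintype.ofFinite _
  by_contra hcon
  push Not at hcon
  have h1 := bad_one H
  have h2 := bad_two H
  set A := univ.filter (fun f : Dual K W =>
      Submodule.span K (Z S f : Set W) ≠ LinearMap.ker f) with hA
  set B := univ.filter (fun f : Dual K W =>
      f ≠ 0 ∧ ∃ g : Dual K W, g ≠ 0 ∧ ∀ s ∈ S, f s = 0 ∨ g s = 0) with hBd
  obtain ⟨m, hm⟩ : ∃ m, finrank K W = k + 4 + m := ⟨finrank K W - (k + 4), by omega⟩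
  have hq2 : (2 : ℤ) ≤ (Fintype.card K : ℤ) := by exact_mod_cast q_ge_two (K := K)
  have hcard : Fintype.card (Dual K W) ≤ A.card + B.card + 1 := by
    have h3 : (univ : Finset (Dual K W)) ⊆ insert 0 (A ∪ B) := by
      intro f _
      rw [mem_insert, mem_union]
      by_cases hf : f = 0
      · exact Or.inl hf
      · right
        by_cases hf2 : Submodule.span K (Z S f : Set W) = LinearMap.ker f
        · obtain ⟨g, hg1, hg2⟩ := hcon f hf hf2
          exact Or.inr (mem_filter.mpr ⟨mem_univ _, hf, g, hg2, hg1⟩)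
        · exact Or.inl (mem_filter.mpr ⟨mem_univ _, hf2⟩)
    have h4 := card_le_card h3
    rw [card_univ] at h4
    have h5 := card_insert_le (0 : Dual K W) (A ∪ B)
    have h6 := card_union_le A B
    omega
  rw [cardDual (K := K)] at hcard
  have hcardZ : (Fintype.card K : ℤ) ^ (finrank K W) ≤ (A.card : ℤ) + (B.card : ℤ) + 1 := by
    exact_mod_cast hcard
  have hBZ : 7 * (Fintype.card K : ℤ) ^ (finrank K W + 2) ≤
      2 * (Fintype.card K : ℤ) ^ k * (S.card : ℤ) := by exact_mod_cast hB
  set q : ℤ := (Fintype.card K : ℤ) with hq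
  have hqk : 0 < q ^ k := by positivity
  have hN : q ^ (finrank K W) = q ^ k * q ^ (4 + m) := by
    rw [hm, ← pow_add]; congr 1; omega
  have hqm : 1 ≤ q ^ m := one_le_pow₀ (by linarith)
  have hqk1 : 1 ≤ q ^ k := one_le_pow₀ (by linarith)
  have hq4 : 16 ≤ q ^ 4 := by
    have := pow_le_pow_left₀ (by norm_num) hq2 4
    linarith
  have hR : 16 ≤ q ^ (4 + m) := by
    rw [pow_add]; nlinarith
  have hN16 : 16 ≤ q ^ (finrank K W) := by
    rw [hN]; nlinarith
  have hlt := numerics (q := q) (R := q ^ (4 + m)) (N := q ^ (finrank K W))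
    (B1 := (A.card : ℤ)) (B2 := (B.card : ℤ)) (s := (S.card : ℤ)) hq2 hR hN16
    (by positivity) (by positivity) ?_ ?_ ?_
  · linarith
  · refine le_of_mul_le_mul_right ?_ hqk
    calc _ ≤ 8 * q ^ 2 * (q ^ finrank K W) ^ 2 + 56 * (q - 1) * q ^ k * q ^ finrank K W := h1
      _ = 8 * q ^ 2 * (q ^ k * q ^ (4 + m)) * q ^ finrank K W +
          56 * (q - 1) * q ^ k * q ^ finrank K W := by rw [← hN]; ring
      _ = _ := by ring
  · refine le_of_mul_le_mul_right ?_ hqk
    calc _ = (B.card : ℤ) * (q - 1) * (S.card : ℤ) * q ^ (k + 1) := by ring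
      _ ≤ _ := h2
      _ = 3 * q ^ finrank K W * (q ^ (k + 1) + q ^ k * q ^ (4 + m) +
            q * (q ^ k * q ^ (4 + m))) := by rw [← hN]
      _ = _ := by ring
  · refine le_of_mul_le_mul_right ?_ hqk
    calc _ = 7 * q ^ (finrank K W + 2) := by rw [pow_add q (finrank K W) 2, hN]; ring
      _ ≤ _ := hBZ
      _ = _ := by ring

end

section Transfer

variable {K : Type} [Field K] {r k : ℕ}

open Helper12.TB

/-- the points inside their span -/
noncomputable def lift (K : Type) [Field K] {r : ℕ} (S : Finset (Fin r → K)) :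
    Finset (Submodule.span K (S : Set (Fin r → K))) := by
  classical
  exact Finset.subtype (fun x => x ∈ Submodule.span K (S : Set (Fin r → K))) S

theorem mem_lift {S : Finset (Fin r → K)} {x : Submodule.span K (S : Set (Fin r → K))} :
    x ∈ lift K S ↔ (x : Fin r → K) ∈ S := by
  classical
  unfold lift
  exact Finset.mem_subtype

theorem card_lift (S : Finset (Fin r → K)) : (lift K S).card = S.card := by
  classical
  unfold lift
  rw [Finset.card_subtype, Finset.filter_true_of_mem]
  intro x hx
  exact Submodule.subset_span hx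

theorem pt_lift {S : Finset (Fin r → K)} (H : Tang k S) : PT K k (lift K S) where
  zero := fun h => H.zero (mem_lift.mp h)
  simp := fun s hs t ht c hc => Subtype.ext (H.simp s.1 (mem_lift.mp hs) t.1 (mem_lift.mp ht) c
    (congrArg Subtype.val hc))
  block := fun f => by
    obtain ⟨F, hF⟩ := LinearMap.exists_extend f
    obtain ⟨s, hs, h0⟩ := H.block F
    refine ⟨⟨s, Submodule.subset_span hs⟩, mem_lift.mpr hs, ?_⟩
    rw [← hF]
    exact h0
  pt := fun t ht => by
    obtain ⟨F, hF0, hF⟩ := exact1 H (mem_lift.mp ht)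
    refine ⟨F.comp (Submodule.subtype _), hF0, fun s hs hst => hF s (mem_lift.mp hs) ?_⟩
    intro h
    exact hst (Subtype.ext h)
  span := by
    have h1 : ((lift K S : Finset (Submodule.span K (S : Set (Fin r → K)))) :
        Set (Submodule.span K (S : Set (Fin r → K)))) =
        Subtype.val ⁻¹' (S : Set (Fin r → K)) := by
      ext x
      simp only [mem_coe, mem_lift, Set.mem_preimage]
    rw [h1]
    exact Submodule.span_span_coe_preimage

/-- a good functional gives a copoint with spanning complement -/
theorem copoint_of {S : Finset (Fin r → K)}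
    {f : Dual K (Submodule.span K (S : Set (Fin r → K)))} (hf : f ≠ 0)
    (hsp : Submodule.span K (Z (lift K S) f : Set (Submodule.span K (S : Set (Fin r → K)))) =
      LinearMap.ker f)
    (hco : ∀ g : Dual K (Submodule.span K (S : Set (Fin r → K))),
      (∀ s ∈ lift K S, f s = 0 ∨ g s = 0) → g = 0) :
    ∃ X : Finset (Fin r → K), X ⊆ S ∧
      (∀ s ∈ S, s ∈ Submodule.span K (X : Set (Fin r → K)) → s ∈ X) ∧
      finrank K (Submodule.span K (X : Set (Fin r → K))) + 1 =
        finrank K (Submodule.span K (S : Set (Fin r → K))) ∧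
      Submodule.span K ((S : Set (Fin r → K)) \ (X : Set (Fin r → K))) =
        Submodule.span K (S : Set (Fin r → K)) := by
  classical
  obtain ⟨F, hF⟩ := LinearMap.exists_extend f
  have hFf : ∀ x : Submodule.span K (S : Set (Fin r → K)), F x = f x := by
    intro x; rw [← hF]; rfl
  set X := S.filter (fun s => F s = 0) with hX
  have hmX : ∀ s, s ∈ X ↔ s ∈ S ∧ F s = 0 := fun s => mem_filter
  have hXS : X ⊆ S := filter_subset _ _
  refine ⟨X, hXS, ?_, ?_, ?_⟩
  · intro s hs hsp2
    refine (hmX s).mpr ⟨hs, ?_⟩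
    have h1 : Submodule.span K (X : Set (Fin r → K)) ≤ LinearMap.ker F := by
      rw [Submodule.span_le]
      intro x hx
      exact ((hmX x).mp hx).2
    exact h1 hsp2
  · have h1 : Submodule.span K (X : Set (Fin r → K)) =
        (LinearMap.ker f).map (Submodule.subtype _) := by
      rw [← hsp, Submodule.map_span]
      congr 1
      ext x
      simp only [mem_coe, hmX, Set.mem_image, mem_Z, mem_lift, Submodule.subtype_apply]
      constructor
      · rintro ⟨hx, h0⟩
        refine ⟨⟨x, Submodule.subset_span hx⟩, ⟨hx, ?_⟩, rfl⟩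
        rw [← hFf]
        exact h0
      · rintro ⟨y, ⟨hy, h0⟩, rfl⟩
        exact ⟨hy, by rw [hFf]; exact h0⟩
    rw [h1, Submodule.finrank_map_subtype_eq]
    exact Module.Dual.finrank_ker_add_one_of_ne_zero hf
  · by_contra hne
    have hle : Submodule.span K ((S : Set (Fin r → K)) \ (X : Set (Fin r → K))) ≤
        Submodule.span K (S : Set (Fin r → K)) := Submodule.span_mono Set.sdiff_subset
    obtain ⟨w, hw, hwn⟩ := SetLike.exists_of_lt (lt_of_le_of_ne hle hne)
    obtain ⟨G, hGw, hG⟩ := Submodule.exists_dual_map_eq_bot_of_notMem hwn inferInstance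
    have h1 := hco (G.comp (Submodule.subtype _)) (by
      intro s hs
      by_cases h0 : f s = 0
      · exact Or.inl h0
      · right
        have h2 : (s : Fin r → K) ∈ Submodule.span K ((S : Set (Fin r → K)) \
            (X : Set (Fin r → K))) := by
          refine Submodule.subset_span ⟨mem_lift.mp hs, fun h3 => h0 ?_⟩
          rw [← hFf]
          exact ((hmX _).mp h3).2
        have h4 : G s ∈ Submodule.map G (Submodule.span K ((S : Set (Fin r → K)) \
            (X : Set (Fin r → K)))) := ⟨s, h2, rfl⟩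
        rw [hG] at h4
        exact (Submodule.mem_bot K).mp h4)
    have h5 := congrArg (fun z : Dual K (Submodule.span K (S : Set (Fin r → K))) => z ⟨w, hw⟩) h1
    exact hGw h5

/-- a nonspanning set lies in a copoint -/
theorem exists_copoint_above {S Y : Finset (Fin r → K)} (hY : Y ⊆ S)
    (hns : Submodule.span K (Y : Set (Fin r → K)) ≠ Submodule.span K (S : Set (Fin r → K))) :
    ∃ X : Finset (Fin r → K), Y ⊆ X ∧ X ⊆ S ∧
      (∀ s ∈ S, s ∈ Submodule.span K (X : Set (Fin r → K)) → s ∈ X) ∧
      finrank K (Submodule.span K (X : Set (Fin r → K))) + 1 =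
        finrank K (Submodule.span K (S : Set (Fin r → K))) := by
  classical
  set C := S.powerset.filter (fun X => Y ⊆ X ∧
    Submodule.span K (X : Set (Fin r → K)) ≠ Submodule.span K (S : Set (Fin r → K))) with hC
  have hCne : C.Nonempty := ⟨Y, by
    rw [hC, mem_filter, mem_powerset]
    exact ⟨hY, Finset.Subset.refl _, hns⟩⟩
  obtain ⟨X, hXC, hmax⟩ := exists_max_image C (fun X => X.card) hCne
  rw [hC, mem_filter, mem_powerset] at hXC
  obtain ⟨hXS, hYX, hXn⟩ := hXC
  -- adding a point outside makes it spanning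
  have hadd : ∀ s ∈ S, s ∉ X → Submodule.span K ((insert s X : Finset (Fin r → K)) :
      Set (Fin r → K)) = Submodule.span K (S : Set (Fin r → K)) := by
    intro s hs hsX
    by_contra h1
    have h2 : insert s X ∈ C := by
      rw [hC, mem_filter, mem_powerset]
      refine ⟨insert_subset hs hXS, hYX.trans (subset_insert _ _), h1⟩
    have h3 := hmax _ h2
    simp only [card_insert_of_notMem hsX] at h3
    omega
  have hle : Submodule.span K (X : Set (Fin r → K)) ≤ Submodule.span K (S : Set (Fin r → K)) :=
    Submodule.span_mono (by exact_mod_cast hXS)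
  have hfl : ∀ s ∈ S, s ∈ Submodule.span K (X : Set (Fin r → K)) → s ∈ X := by
    intro s hs hsX
    by_contra hn
    have h1 := hadd s hs hn
    rw [coe_insert, Submodule.span_insert_eq_span hsX] at h1
    exact hXn h1
  refine ⟨X, hYX, hXS, hfl, ?_⟩
  have hex : ∃ s ∈ S, s ∉ X := by
    by_contra hcon
    push Not at hcon
    exact hXn (by rw [Finset.Subset.antisymm hXS hcon])
  obtain ⟨s, hs, hsX⟩ := hex
  have h1 := hadd s hs hsX
  rw [coe_insert, Submodule.span_insert] at h1
  have h2 : finrank K (Submodule.span K (S : Set (Fin r → K))) ≤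
      finrank K (Submodule.span K (X : Set (Fin r → K))) + 1 := by
    rw [← h1]
    have h3 := Submodule.finrank_add_le_finrank_add_finrank (Submodule.span K {s})
      (Submodule.span K (X : Set (Fin r → K)))
    have h4 : finrank K (Submodule.span K ({s} : Set (Fin r → K))) ≤ 1 := by
      by_cases h0 : s = 0
      · rw [h0, Submodule.span_zero_singleton, finrank_bot]
        exact Nat.zero_le _
      · exact (finrank_span_singleton h0).le
    omega
  have h3 := Submodule.finrank_lt_finrank_of_lt (lt_of_le_of_ne hle hXn)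
  omega

end Transfer

end Pool.Agent.Helper74.TBD
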